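import Pool.Agent.helper36.P3.Places

/-!
# P3, module B3: the maximum principle
-/

namespace Pool.Agent.helper56.P3

open Finset Pool.Agent.helper56.Per Polynomial

namespace MP

section Prim

variable {k : Type*} [Field k] {O : ValuationSubring k}

/-- integral coefficients -/
def Ob (O : ValuationSubring k) (p : k[X]) : Prop := ∀ i, O.valuation (p.coeff i) ≤ 1

/-- primitive polynomials -/
def Pr (O : ValuationSubring k) (p : k[X]) : Prop :=
  Ob O p ∧ ∃ i, O.valuation (p.coeff i) = 1

theorem Ob_zero : Ob O 0 := fun i => by simp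

theorem Ob_C {c : k} (hc : O.valuation c ≤ 1) : Ob O (C c) := fun i => by
  rw [coeff_C]
  split_ifs
  · exact hc
  · simp

theorem Ob_X : Ob O X := fun i => by
  rw [coeff_X]
  split_ifs
  · simp
  · simp

theorem Ob_one : Ob O 1 := by
  rw [← C_1]; exact Ob_C (by simp)

theorem Ob_add {p q : k[X]} (hp : Ob O p) (hq : Ob O q) : Ob O (p + q) := fun i => by
  rw [coeff_add]
  exact O.valuation.map_add_le (hp i) (hq i)

theorem Ob_neg {p : k[X]} (hp : Ob O p) : Ob O (-p) := fun i => by
  rw [coeff_neg, Valuation.map_neg]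
  exact hp i

theorem Ob_mul {p q : k[X]} (hp : Ob O p) (hq : Ob O q) : Ob O (p * q) := fun i => by
  rw [coeff_mul]
  refine O.valuation.map_sum_le fun x _ => ?_
  rw [map_mul]
  exact mul_le_one' (hp _) (hq _)

theorem Pr_one : Pr O 1 := ⟨Ob_one, 0, by simp⟩

theorem Pr_mul {p q : k[X]} (hp : Pr O p) (hq : Pr O q) : Pr O (p * q) := by
  classical
  refine ⟨Ob_mul hp.1 hq.1, ?_⟩
  set i0 := Nat.find hp.2 with hi0
  set j0 := Nat.find hq.2 with hj0
  refine ⟨i0 + j0, ?_⟩
  have h1 : O.valuation (p.coeff i0) = 1 := Nat.find_spec hp.2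
  have h2 : O.valuation (q.coeff j0) = 1 := Nat.find_spec hq.2
  have hmem : ((i0, j0) : ℕ × ℕ) ∈ Finset.HasAntidiagonal.antidiagonal (i0 + j0) :=
    Finset.HasAntidiagonal.mem_antidiagonal.2 rfl
  rw [coeff_mul, ← Finset.add_sum_erase _ _ hmem]
  have h3 : O.valuation (p.coeff i0 * q.coeff j0) = 1 := by rw [map_mul, h1, h2, one_mul]
  rw [Valuation.map_add_eq_of_lt_left, h3]
  rw [h3]
  refine O.valuation.map_sum_lt one_ne_zero fun x hx => ?_
  rw [map_mul]
  have hx1 := Finset.HasAntidiagonal.mem_antidiagonal.1 (Finset.mem_of_mem_erase hx)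
  have hx2 := Finset.ne_of_mem_erase hx
  have hlt : x.1 < i0 ∨ x.2 < j0 := by
    by_contra hcon
    push Not at hcon
    apply hx2
    ext
    · show x.1 = i0
      omega
    · show x.2 = j0
      omega
  rcases hlt with h | h
  · exact lt1_of_lt_of_le (lt_of_le_of_ne (hp.1 _) (Nat.find_min hp.2 h)) (hq.1 _)
  · exact lt1_of_le_of_lt (hp.1 _) (lt_of_le_of_ne (hq.1 _) (Nat.find_min hq.2 h))

theorem exists_prim (O : ValuationSubring k) {p : k[X]} (hp : p ≠ 0) :
    ∃ c : k, c ≠ 0 ∧ ∃ p1, Pr O p1 ∧ p = C c * p1 := by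
  obtain ⟨i, hi, hmax⟩ := Finset.exists_max_image p.support (fun i => O.valuation (p.coeff i))
    (nonempty_support_iff.2 hp)
  have hc : p.coeff i ≠ 0 := mem_support_iff.1 hi
  have hvc : O.valuation (p.coeff i) ≠ 0 := (O.valuation.ne_zero_iff).2 hc
  refine ⟨p.coeff i, hc, C (p.coeff i)⁻¹ * p, ⟨fun j => ?_, i, ?_⟩, ?_⟩
  · rw [coeff_C_mul, map_mul, map_inv₀]
    by_cases hj : j ∈ p.support
    · rw [inv_mul_le_iff₀ (zero_lt_iff.2 hvc), mul_one]
      exact hmax j hj
    · rw [notMem_support_iff.1 hj, map_zero, mul_zero]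
      exact zero_le_one
  · rw [coeff_C_mul, map_mul, map_inv₀, inv_mul_cancel₀ hvc]
  · rw [← mul_assoc, ← C_mul, mul_inv_cancel₀ hc, C_1, one_mul]

theorem Pr_ne_zero {p : k[X]} (hp : Pr O p) : p ≠ 0 := by
  rintro rfl
  obtain ⟨i, hi⟩ := hp.2
  simp at hi

/-- the Gauss valuation ring of `k(X)` -/
def VG (O : ValuationSubring k) : ValuationSubring (FractionRing k[X]) where
  carrier := {x | ∃ p q, Ob O p ∧ Pr O q ∧ algebraMap k[X] _ q * x = algebraMap k[X] _ p}
  mul_mem' := by
    rintro x y ⟨p, q, hp, hq, h⟩ ⟨p', q', hp', hq', h'⟩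
    refine ⟨p * p', q * q', Ob_mul hp hp', Pr_mul hq hq', ?_⟩
    rw [map_mul, map_mul, ← h, ← h']; ring
  one_mem' := ⟨1, 1, Ob_one, Pr_one, by simp⟩
  add_mem' := by
    rintro x y ⟨p, q, hp, hq, h⟩ ⟨p', q', hp', hq', h'⟩
    refine ⟨p * q' + p' * q, q * q', Ob_add (Ob_mul hp hq'.1) (Ob_mul hp' hq.1), Pr_mul hq hq', ?_⟩
    rw [map_mul, map_add, map_mul, map_mul, ← h, ← h']; ring
  zero_mem' := ⟨0, 1, Ob_zero, Pr_one, by simp⟩
  neg_mem' := by
    rintro x ⟨p, q, hp, hq, h⟩
    exact ⟨-p, q, Ob_neg hp, hq, by rw [map_neg, ← h]; ring⟩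
  mem_or_inv_mem' := by
    intro x
    obtain ⟨p, q, hq, rfl⟩ := IsFractionRing.div_surjective (A := k[X]) x
    by_cases hp0 : p = 0
    · left
      exact ⟨0, 1, Ob_zero, Pr_one, by simp [hp0]⟩
    · have hq0 : q ≠ 0 := nonZeroDivisors.ne_zero hq
      obtain ⟨c, hc, p1, hp1, rfl⟩ := exists_prim O hp0
      obtain ⟨d, hd, q1, hq1, rfl⟩ := exists_prim O hq0
      have hinj := IsFractionRing.injective k[X] (FractionRing k[X])
      have e1 : algebraMap k[X] (FractionRing k[X]) (C c) ≠ 0 := by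
        rw [Ne, map_eq_zero_iff _ hinj, C_eq_zero]; exact hc
      have e2 : algebraMap k[X] (FractionRing k[X]) (C d) ≠ 0 := by
        rw [Ne, map_eq_zero_iff _ hinj, C_eq_zero]; exact hd
      have e3 : algebraMap k[X] (FractionRing k[X]) p1 ≠ 0 := by
        rw [Ne, map_eq_zero_iff _ hinj]; exact Pr_ne_zero hp1
      have e4 : algebraMap k[X] (FractionRing k[X]) q1 ≠ 0 := by
        rw [Ne, map_eq_zero_iff _ hinj]; exact Pr_ne_zero hq1
      rcases le_total (O.valuation c) (O.valuation d) with h | h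
      · left
        refine ⟨C (c / d) * p1, q1, Ob_mul (Ob_C ?_) hp1.1, hq1, ?_⟩
        · rw [map_div₀, div_le_one₀ (zero_lt_iff.2 ((O.valuation.ne_zero_iff).2 hd))]
          exact h
        · have e5 : algebraMap k[X] (FractionRing k[X]) (C c)
              = algebraMap k[X] (FractionRing k[X]) (C (c / d))
                * algebraMap k[X] (FractionRing k[X]) (C d) := by
            rw [← map_mul, ← C_mul, div_mul_cancel₀ _ hd]
          rw [map_mul, map_mul, map_mul, e5]
          field_simp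
      · right
        refine ⟨C (d / c) * q1, p1, Ob_mul (Ob_C ?_) hq1.1, hp1, ?_⟩
        · rw [map_div₀, div_le_one₀ (zero_lt_iff.2 ((O.valuation.ne_zero_iff).2 hc))]
          exact h
        · have e5 : algebraMap k[X] (FractionRing k[X]) (C d)
              = algebraMap k[X] (FractionRing k[X]) (C (d / c))
                * algebraMap k[X] (FractionRing k[X]) (C c) := by
            rw [← map_mul, ← C_mul, div_mul_cancel₀ _ hc]
          rw [map_mul, map_mul, map_mul, e5]
          field_simp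

theorem mem_VG {x : FractionRing k[X]} : x ∈ VG O ↔
    ∃ p q, Ob O p ∧ Pr O q ∧ algebraMap k[X] _ q * x = algebraMap k[X] _ p := Iff.rfl

theorem Ob_of_VG {p : k[X]} (h : algebraMap k[X] (FractionRing k[X]) p ∈ VG O) : Ob O p := by
  obtain ⟨p', q, hp', hq, e⟩ := mem_VG.1 h
  rw [← map_mul] at e
  have e' := IsFractionRing.injective k[X] (FractionRing k[X]) e
  by_cases hp0 : p = 0
  · rw [hp0]; exact Ob_zero
  obtain ⟨c, hc, p1, hp1, rfl⟩ := exists_prim O hp0
  obtain ⟨i, hi⟩ := (Pr_mul hq hp1).2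
  have h1 := hp' i
  rw [← e', show q * (C c * p1) = C c * (q * p1) by ring, coeff_C_mul, map_mul, hi, mul_one] at h1
  exact Ob_mul (Ob_C h1) hp1.1

theorem VG_of_Ob {p : k[X]} (h : Ob O p) : algebraMap k[X] (FractionRing k[X]) p ∈ VG O :=
  ⟨p, 1, h, Pr_one, by simp⟩

theorem VG_inv {p : k[X]} (h : Pr O p) : (algebraMap k[X] (FractionRing k[X]) p)⁻¹ ∈ VG O := by
  refine ⟨1, p, Ob_one, h, ?_⟩
  rw [map_one, mul_inv_cancel₀]
  rw [Ne, map_eq_zero_iff _ (IsFractionRing.injective k[X] (FractionRing k[X]))]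
  exact Pr_ne_zero h

end Prim

section Closed

variable {K : Type*} [Field K]

/-- localization of a subring -/
def locS (A : Subring K) (T : Submonoid K) (hT : ∀ s ∈ T, s ∈ A) : Subring K where
  carrier := {x | ∃ s ∈ T, s * x ∈ A}
  mul_mem' := by
    rintro x y ⟨s, hs, h2⟩ ⟨t, ht, h4⟩
    refine ⟨s * t, mul_mem hs ht, ?_⟩
    rw [show s * t * (x * y) = (s * x) * (t * y) by ring]
    exact mul_mem h2 h4
  one_mem' := ⟨1, one_mem _, by rw [one_mul]; exact one_mem _⟩
  add_mem' := by
    rintro x y ⟨s, hs, h2⟩ ⟨t, ht, h4⟩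
    refine ⟨s * t, mul_mem hs ht, ?_⟩
    rw [show s * t * (x + y) = t * (s * x) + s * (t * y) by ring]
    exact add_mem (mul_mem (hT t ht) h2) (mul_mem (hT s hs) h4)
  zero_mem' := ⟨1, one_mem _, by rw [mul_zero]; exact zero_mem _⟩
  neg_mem' := by
    rintro x ⟨s, hs, h2⟩
    exact ⟨s, hs, by rw [mul_neg]; exact neg_mem h2⟩

theorem mem_locS {A : Subring K} {T : Submonoid K} {hT : ∀ s ∈ T, s ∈ A} {x : K} :
    x ∈ locS A T hT ↔ ∃ s ∈ T, s * x ∈ A := Iff.rfl

theorem le_locS {A : Subring K} {T : Submonoid K} {hT : ∀ s ∈ T, s ∈ A} : A ≤ locS A T hT :=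
  fun x hx => ⟨1, one_mem _, by rwa [one_mul]⟩

theorem locS_closed (A : Subring K) (T : Submonoid K) (hT : ∀ s ∈ T, s ∈ A)
    (h0 : ∀ s ∈ T, s ≠ 0) (hA : IsIntegrallyClosedIn A K) :
    IsIntegrallyClosedIn (locS A T hT) K := by
  rw [Subring.isIntegrallyClosedIn_iff]
  intro x hx
  let M : Submonoid A := T.comap A.subtype.toMonoidHom
  let : Algebra A (locS A T hT) := (Subring.inclusion le_locS).toAlgebra
  have : IsScalarTower A (locS A T hT) K := IsScalarTower.of_algebraMap_eq fun _ => rfl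
  have : IsLocalization M (locS A T hT) := by
    refine ⟨?_, ?_, ?_⟩
    · rintro ⟨y, hy⟩
      have hy' : (y : K) ∈ T := hy
      have hinv : (y : K)⁻¹ ∈ locS A T hT :=
        ⟨y, hy', by rw [mul_inv_cancel₀ (h0 _ hy')]; exact one_mem _⟩
      refine IsUnit.of_mul_eq_one (⟨_, hinv⟩ : locS A T hT) ?_
      ext
      exact mul_inv_cancel₀ (h0 _ hy')
    · rintro ⟨z, s, hs, hz⟩
      refine ⟨(⟨s * z, hz⟩, ⟨⟨s, hT s hs⟩, hs⟩), ?_⟩
      ext
      exact mul_comm _ _
    · rintro ⟨y, hy⟩ ⟨z, hz⟩ e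
      refine ⟨1, ?_⟩
      have e' : y = z := congrArg Subtype.val e
      subst e'
      rfl
  obtain ⟨m, hm⟩ := IsIntegral.exists_multiple_integral_of_isLocalization M x hx
  have h1 := Subring.isIntegrallyClosedIn_iff.1 hA hm
  exact ⟨m.1.1, m.2, h1⟩

end Closed

section Main

variable {k K : Type*} [Field k] [Field K] [Algebra k K] [Algebra k[X] K]
  [Algebra (FractionRing k[X]) K] [IsScalarTower k[X] (FractionRing k[X]) K] {g : K}
  {O : ValuationSubring k} {ν0 : ValuationSubring K}

/-- integral closure of the Gauss valuation ring -/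
noncomputable def AG (K : Type*) [Field K] [Algebra (FractionRing k[X]) K] (O : ValuationSubring k) :
    Subring K := (integralClosure (VG O).toSubring K).toSubring

/-- integral closure of `k[g]` -/
noncomputable def AP (k K : Type*) [Field k] [Field K] [Algebra k[X] K] : Subring K :=
  (integralClosure k[X] K).toSubring

theorem AG_closed : IsIntegrallyClosedIn (AG K O) K :=
  inferInstanceAs (IsIntegrallyClosedIn (integralClosure (VG O).toSubring K) K)

omit [Algebra k K] [Algebra (FractionRing k[X]) K] [IsScalarTower k[X] (FractionRing k[X]) K] in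
theorem AP_closed : IsIntegrallyClosedIn (AP k K) K :=
  inferInstanceAs (IsIntegrallyClosedIn (integralClosure k[X] K) K)

theorem VG_le {x : FractionRing k[X]} (hx : x ∈ VG O) :
    algebraMap (FractionRing k[X]) K x ∈ AG K O :=
  isIntegral_algebraMap (R := (VG O).toSubring) (x := ⟨x, hx⟩)

theorem Bp_le_AG (hX : ∀ p : k[X], algebraMap k[X] K p = aeval g p) : Bp O g ≤ AG K O := by
  have := AG_closed (K := K) (O := O)
  refine Subring.integralClosure_subring_le_iff.2 ?_
  show A0 O g ≤ AG K O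
  refine Subring.closure_le.2 ?_
  rintro _ (⟨α, hα, rfl⟩ | rfl)
  · have h := VG_le (K := K) (VG_of_Ob (Ob_C ((O.valuation_le_one_iff α).2 hα)))
    rw [← IsScalarTower.algebraMap_apply, hX, aeval_C] at h
    exact h
  · have h := VG_le (K := K) (VG_of_Ob (Ob_X (O := O)))
    rw [← IsScalarTower.algebraMap_apply, hX, aeval_X] at h
    exact h

theorem Bp_le_AP (hX : ∀ p : k[X], algebraMap k[X] K p = aeval g p) : Bp O g ≤ AP k K := by
  have := AP_closed (k := k) (K := K)
  refine Subring.integralClosure_subring_le_iff.2 ?_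
  show A0 O g ≤ AP k K
  refine Subring.closure_le.2 ?_
  rintro _ (⟨α, hα, rfl⟩ | rfl)
  · have h : IsIntegral k[X] (algebraMap k[X] K (C α)) := isIntegral_algebraMap
    rw [hX, aeval_C] at h
    exact h
  · have h : IsIntegral k[X] (algebraMap k[X] K X) := isIntegral_algebraMap
    rw [hX, aeval_X] at h
    exact h

theorem poly_mem {p : k[X]} (hp : Ob O p) : aeval g p ∈ A0 O g := by
  rw [aeval_eq_sum_range]
  refine sum_mem fun i _ => ?_
  rw [Algebra.smul_def]
  have h1 : algebraMap k K (p.coeff i) ∈ A0 O g :=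
    Subring.subset_closure (Or.inl ⟨_, (O.valuation_le_one_iff _).1 (hp i), rfl⟩)
  have h2 : g ∈ A0 O g := Subring.subset_closure (Or.inr rfl)
  exact mul_mem h1 (pow_mem h2 _)

theorem inter (hX : ∀ p : k[X], algebraMap k[X] K p = aeval g p) {y : K} (h1 : y ∈ AG K O)
    (h2 : y ∈ AP k K) : y ∈ Bp O g := by
  have h1' : IsIntegral (VG O).toSubring y := h1
  have h2' : IsIntegral k[X] y := h2
  have : IsFractionRing (VG O).toSubring (FractionRing k[X]) :=
    inferInstanceAs (IsFractionRing (VG O) (FractionRing k[X]))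
  have e1 := minpoly.isIntegrallyClosed_eq_field_fractions' (FractionRing k[X]) h2'
  have e2 := minpoly.isIntegrallyClosed_eq_field_fractions' (FractionRing k[X]) h1'
  have hOb : ∀ i, Ob O ((minpoly k[X] y).coeff i) := by
    intro i
    apply Ob_of_VG
    have := congrArg (fun q => q.coeff i) (e1.symm.trans e2)
    simp only [coeff_map] at this
    rw [this]
    exact ((minpoly (VG O).toSubring y).coeff i).2
  set Q := (minpoly k[X] y).map (algebraMap k[X] K) with hQ
  have hc : ∀ i, Q.coeff i ∈ A0 O g := by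
    intro i
    rw [hQ, coeff_map, hX]
    exact poly_mem (hOb i)
  have hcs : (↑Q.coeffs : Set K) ⊆ (A0 O g : Set K) := by
    intro z hz
    obtain ⟨n, _, rfl⟩ := mem_coeffs_iff.1 hz
    exact hc n
  have hmon : Q.Monic := (minpoly.monic h2').map _
  show IsIntegral (A0 O g) y
  refine ⟨Q.toSubring (A0 O g) hcs, (monic_toSubring _ _ _).2 hmon, ?_⟩
  have e3 : eval₂ (algebraMap (A0 O g) K) y (Q.toSubring (A0 O g) hcs)
      = eval y ((Q.toSubring (A0 O g) hcs).map (Subring.subtype _)) := by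
    rw [eval_map]; rfl
  rw [e3, map_toSubring, hQ, eval_map]
  exact minpoly.aeval k[X] y

/-- the multiplicative set -/
def TT0 (O : ValuationSubring k) (g : K) (ν0 : ValuationSubring K) : Submonoid K where
  carrier := {s | s ∈ Bp O g ∧ ν0.valuation s = 1}
  mul_mem' := by
    rintro x y ⟨h1, h2⟩ ⟨h3, h4⟩
    exact ⟨mul_mem h1 h3, by rw [map_mul, h2, h4, one_mul]⟩
  one_mem' := ⟨one_mem _, map_one _⟩

theorem gauss_or_top (hX : ∀ p : k[X], algebraMap k[X] K p = aeval g p) (hB : Base O g ν0)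
    (hint : ∀ u : K, IsIntegral (FractionRing k[X]) u) (W : ValuationSubring K)
    (hW : locS (AG K O) (TT0 O g ν0) (fun s hs => Bp_le_AG hX hs.1) ≤ W.toSubring) :
    W = ⊤ ∨ IsGauss O g ν0 W := by
  have hAG : AG K O ≤ W.toSubring := le_locS.trans hW
  have hVG : ∀ x ∈ VG O, algebraMap (FractionRing k[X]) K x ∈ W := fun x hx => hAG (VG_le hx)
  have hpol : ∀ p : k[X], Ob O p → aeval g p ∈ W := fun p hp => by
    have := hVG _ (VG_of_Ob hp)
    rwa [← IsScalarTower.algebraMap_apply, hX] at this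
  have hpri : ∀ p : k[X], Pr O p → (aeval g p)⁻¹ ∈ W := fun p hp => by
    have := hVG _ (VG_inv hp)
    rwa [map_inv₀, ← IsScalarTower.algebraMap_apply, hX] at this
  have hOW : O ≤ W.comap (algebraMap k K) := by
    intro α hα
    have := hpol (C α) (Ob_C ((O.valuation_le_one_iff α).2 hα))
    rwa [aeval_C] at this
  rcases hB.rank _ hOW with h | h
  · right
    refine ⟨?_, ?_, ?_⟩
    · rintro x ⟨s, hs, h1, h2⟩
      exact hW ⟨s, ⟨hs, h1⟩, Bp_le_AG hX h2⟩
    · intro x
      rw [W.valuation_le_one_iff, O.valuation_le_one_iff, ← h]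
      rfl
    · intro p hp1 hp2
      have h3 : W.valuation (aeval g p) ≤ 1 := (W.valuation_le_one_iff _).2 (hpol p hp1)
      have h4 : W.valuation (aeval g p)⁻¹ ≤ 1 := (W.valuation_le_one_iff _).2 (hpri p ⟨hp1, hp2⟩)
      have h5 : aeval g p ≠ 0 := by
        rw [← hX, IsScalarTower.algebraMap_apply k[X] (FractionRing k[X]) K, Ne,
          map_eq_zero, map_eq_zero_iff _ (IsFractionRing.injective k[X] (FractionRing k[X]))]
        exact Pr_ne_zero (O := O) ⟨hp1, hp2⟩
      have h6 : W.valuation (aeval g p) ≠ 0 := (W.valuation.ne_zero_iff).2 h5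
      rw [map_inv₀, inv_le_one₀ (zero_lt_iff.2 h6)] at h4
      exact le_antisymm h3 h4
  · left
    have hk : ∀ α : k, algebraMap k K α ∈ W := fun α => by
      have : α ∈ W.comap (algebraMap k K) := by rw [h]; trivial
      exact this
    have hpol' : ∀ p : k[X], aeval g p ∈ W := by
      intro p
      by_cases hp0 : p = 0
      · rw [hp0, map_zero]; exact zero_mem _
      obtain ⟨c, hc, p1, hp1, rfl⟩ := exists_prim O hp0
      rw [map_mul, aeval_C]
      exact mul_mem (hk c) (hpol p1 hp1.1)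
    have hinv' : ∀ p : k[X], (aeval g p)⁻¹ ∈ W := by
      intro p
      by_cases hp0 : p = 0
      · rw [hp0, map_zero, inv_zero]; exact zero_mem _
      obtain ⟨c, hc, p1, hp1, rfl⟩ := exists_prim O hp0
      rw [map_mul, aeval_C, mul_inv, ← map_inv₀]
      exact mul_mem (hk c⁻¹) (hpri p1 hp1)
    have hF : ∀ x : FractionRing k[X], algebraMap (FractionRing k[X]) K x ∈ W := by
      intro x
      obtain ⟨p, q, hq, rfl⟩ := IsFractionRing.div_surjective (A := k[X]) x
      rw [map_div₀, ← IsScalarTower.algebraMap_apply, ← IsScalarTower.algebraMap_apply, hX, hX,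
        div_eq_mul_inv]
      exact mul_mem (hpol' p) (hinv' q)
    have hcl : IsIntegrallyClosedIn W.toSubring K := by
      rw [Subring.isIntegrallyClosedIn_iff]
      intro x hx
      have : IsIntegral W x := hx
      obtain ⟨y, hy⟩ := (IsIntegrallyClosed.isIntegral_iff (R := W) (K := K)).1 this
      rw [← hy]
      exact y.2
    have hall := (Subring.integralClosure_le_iff (R := FractionRing k[X])
      (T := W.toSubring)).2 hF
    apply top_unique
    intro u _
    exact hall (hint u)

end Main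

end MP

section B3

variable {k K : Type*} [Field k] [Field K] [Algebra k K] {O : ValuationSubring k} {g : K}
  {ν0 : ValuationSubring K}

theorem mp [IsAlgClosed k] [IsAlgClosed K] (hTD : TD1 k K) (hB : Base O g ν0) {x : K}
    (h1 : ∀ P, IsDel O g ν0 P → P.valuation x ≤ 1)
    (h2 : ∀ ν, IsGauss O g ν0 ν → ν.valuation x ≤ 1) : x ∈ Loc O g ν0 := by
  have htr : Transcendental k g := by
    intro halg
    apply hB.nc
    exact IsIntegral.mem_range_algebraMap_of_minpoly_splits halg.isIntegral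
      (IsAlgClosed.splits _)
  let : Algebra k[X] K := (aeval g).toRingHom.toAlgebra
  have hX : ∀ p : k[X], algebraMap k[X] K p = aeval g p := fun _ => rfl
  have hinj : Function.Injective (algebraMap k[X] K) := transcendental_iff_injective.1 htr
  let : Algebra (FractionRing k[X]) K := (IsFractionRing.lift hinj).toAlgebra
  have : IsScalarTower k[X] (FractionRing k[X]) K :=
    IsScalarTower.of_algebraMap_eq fun p => (IsFractionRing.lift_algebraMap hinj p).symm
  have hint : ∀ u : K, IsIntegral (FractionRing k[X]) u := by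
    intro u
    rw [← isAlgebraic_iff_isIntegral]
    have hai : AlgebraicIndependent k (fun _ : Fin 1 => g) := by
      rw [algebraicIndependent_unique_type_iff]
      exact htr
    have hnot : ¬ Transcendental (Algebra.adjoin k (Set.range fun _ : Fin 1 => g)) u := by
      intro htu
      have h3 := (hai.option_iff_transcendental u).2 htu
      apply hTD u g
      let e : Fin 2 ≃ Option (Fin 1) := finSuccEquiv 1
      refine (algebraicIndependent_equiv' e ?_).2 h3
      funext i
      fin_cases i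
      · rfl
      · rfl
    have halg : IsAlgebraic (Algebra.adjoin k (Set.range fun _ : Fin 1 => g)) u :=
      not_not.1 hnot
    obtain ⟨p, hp0, hp⟩ := halg
    have hadj : ∀ z ∈ Algebra.adjoin k (Set.range fun _ : Fin 1 => g),
        z ∈ Set.range (algebraMap (FractionRing k[X]) K) := by
      intro z hz
      rw [Set.range_const, Algebra.adjoin_singleton_eq_range_aeval] at hz
      obtain ⟨q, rfl⟩ := hz
      exact ⟨algebraMap k[X] _ q, by rw [← IsScalarTower.algebraMap_apply]; rfl⟩
    have hl : p.map (algebraMap _ K) ∈ lifts (algebraMap (FractionRing k[X]) K) := by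
      rw [lifts_iff_coeff_lifts]
      intro n
      rw [coeff_map]
      exact hadj _ (p.coeff n).2
    obtain ⟨p', hp'⟩ := (mem_lifts _).1 hl
    refine ⟨p', ?_, ?_⟩
    · rintro rfl
      rw [Polynomial.map_zero] at hp'
      apply hp0
      have hi : Function.Injective
          (algebraMap (Algebra.adjoin k (Set.range fun _ : Fin 1 => g)) K) :=
        Subtype.val_injective
      exact (Polynomial.map_injective _ hi) (by rw [Polynomial.map_zero]; exact hp'.symm)
    · rw [aeval_def, ← eval_map, hp', eval_map, ← aeval_def]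
      exact hp
  have hT1 : ∀ s ∈ MP.TT0 O g ν0, s ≠ 0 := by
    rintro s ⟨-, hs⟩ rfl
    rw [map_zero] at hs
    exact zero_ne_one hs
  have hR1 : x ∈ MP.locS (MP.AP k K) (MP.TT0 O g ν0) (fun s hs => MP.Bp_le_AP hX hs.1) := by
    by_contra hx
    have := MP.locS_closed (MP.AP k K) (MP.TT0 O g ν0) (fun s hs => MP.Bp_le_AP hX hs.1) hT1
      MP.AP_closed
    obtain ⟨W, hW, hxW⟩ := Subring.exists_le_valuationSubring_of_isIntegrallyClosedIn hx
    have hk : ∀ α : k, algebraMap k K α ∈ W := by
      intro α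
      apply hW
      apply MP.le_locS
      have h : IsIntegral k[X] (algebraMap k[X] K (C α)) := isIntegral_algebraMap
      rw [hX, aeval_C] at h
      exact h
    have hne : W ≠ ⊤ := by rintro rfl; exact hxW trivial
    have hpl := isPl_of hTD W hk hne
    apply hxW
    rw [← W.valuation_le_one_iff]
    refine h1 W ⟨?_, hpl⟩
    rintro y ⟨s, hs, h3, h4⟩
    exact hW ⟨s, ⟨hs, h3⟩, MP.Bp_le_AP hX h4⟩
  have hR2 : x ∈ MP.locS (MP.AG K O) (MP.TT0 O g ν0) (fun s hs => MP.Bp_le_AG hX hs.1) := by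
    by_contra hx
    have := MP.locS_closed (MP.AG K O) (MP.TT0 O g ν0) (fun s hs => MP.Bp_le_AG hX hs.1) hT1
      MP.AG_closed
    obtain ⟨W, hW, hxW⟩ := Subring.exists_le_valuationSubring_of_isIntegrallyClosedIn hx
    rcases MP.gauss_or_top hX hB hint W hW with rfl | hG
    · exact hxW trivial
    · apply hxW
      rw [← W.valuation_le_one_iff]
      exact h2 W hG
  obtain ⟨s, hs, h3⟩ := hR1
  obtain ⟨t, ht, h4⟩ := hR2
  refine ⟨s * t, mul_mem hs.1 ht.1, by rw [map_mul, hs.2, ht.2, one_mul], ?_⟩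
  apply MP.inter hX
  · rw [show s * t * x = s * (t * x) by ring]
    exact mul_mem (MP.Bp_le_AG hX hs.1) h4
  · rw [show s * t * x = t * (s * x) by ring]
    exact mul_mem (MP.Bp_le_AP hX ht.1) h3

end B3

end Pool.Agent.helper56.P3
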